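import Pool.Agent.V1171.GF.Comp
import Pool.Agent.V1171.GF.Conv

set_option autoImplicit false

namespace Pool.Agent.Results.MP_eb85ab_an.LocallyUniform

open Filter Topology Metric MeasureTheory V1171.GF
open scoped ENNReal

theorem equi {E : Type*} [NormedAddCommGroup E] [NormedSpace ℂ E] [ProperSpace E]
    {Ω : Set E} {ρ : E → ℝ} {R r : ℝ} {N : ℕ} (D : Dat Ω ρ R r N)
    (hnz : ∃ y : E, ‖y‖ = 3 * r) (a : ℝ → Fin N → E)
    (ha : ∀ j, Tendsto (fun ε => a ε j) (𝓝[>] (0:ℝ)) (𝓝 0)) (K : Set E) (hK : IsCompact K)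
    (hKW : K ⊆ Ω \ {0}) :
    (∀ᶠ ε in 𝓝[>] (0:ℝ), ∀ z ∈ K, Green Ω (Set.range (a ε)) z ≠ ⊥ ∧
      Green Ω (Set.range (a ε)) z ≠ ⊤) ∧
    ∀ δ > 0, ∃ η > 0, ∀ᶠ ε in 𝓝[>] (0:ℝ), ∀ z ∈ K, ∀ w ∈ K, ‖w - z‖ < η →
      |(Green Ω (Set.range (a ε)) w).toReal - (Green Ω (Set.range (a ε)) z).toReal| ≤ δ := by
  obtain ⟨κ, hκ, hκK⟩ : ∃ κ > 0, ∀ z ∈ K, κ ≤ ‖z‖ := by
    rcases K.eq_empty_or_nonempty with h | h
    · exact ⟨1, one_pos, fun z hz => by rw [h] at hz; exact absurd hz (Set.notMem_empty z)⟩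
    · obtain ⟨z0, hz0, hmin⟩ := hK.exists_isMinOn h continuous_norm.continuousOn
      refine ⟨‖z0‖, norm_pos_iff.mpr ?_, fun z hz => hmin hz⟩
      exact (hKW hz0).2
  have hsmall : ∀ σ > 0, ∀ᶠ ε in 𝓝[>] (0:ℝ), ∀ j, ‖a ε j‖ < σ := by
    intro σ hσ
    rw [eventually_all]
    intro j
    have := (ha j).norm
    rw [norm_zero] at this
    exact this.eventually_lt_const hσ
  have hr := D.rpos
  have hfin : ∀ᶠ ε in 𝓝[>] (0:ℝ), ∀ z ∈ K, Green Ω (Set.range (a ε)) z ≠ ⊥ ∧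
      Green Ω (Set.range (a ε)) z ≠ ⊤ := by
    filter_upwards [hsmall (min κ (r / 2)) (by positivity)] with ε hε z hz
    apply green_finite D hnz (a ε) (fun j => ((hε j).trans_le (min_le_right _ _)).le) z (hKW hz).1
    intro j h
    have h1 := hκK z hz
    have h2 := (hε j).trans_le (min_le_left _ _)
    rw [← h] at h2
    linarith
  refine ⟨hfin, fun δ hδ => ?_⟩
  obtain ⟨η, hη, σ, hσ, hmain⟩ := main_ineq D hnz δ κ hδ hκ
  refine ⟨η, hη, ?_⟩
  filter_upwards [hfin, hsmall σ hσ] with ε h1 h2 z hz w hw hwz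
  have h3 := hmain (a ε) h2 z (hKW hz).1 (hκK z hz) w (hKW hw).1 hwz
  have h4 := hmain (a ε) h2 w (hKW hw).1 (hκK w hw) z (hKW hz).1 (by rwa [norm_sub_rev])
  obtain ⟨hz1, hz2⟩ := h1 z hz
  obtain ⟨hw1, hw2⟩ := h1 w hw
  rw [← EReal.coe_toReal hz2 hz1, ← EReal.coe_toReal hw2 hw1, ← EReal.coe_add,
    EReal.coe_le_coe_iff] at h3 h4
  rw [abs_le]
  constructor <;> linarith

/-- **Negative answer to Q1 (the negated form).**  `E` is `ℂⁿ` (any finite-dimensional complex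
normed space; the choice of the norm does not change the Green function), `μ` is Lebesgue measure.
If the multipole pluricomplex Green functions `G_{S_ε}` of a bounded hyperconvex domain `Ω ⊂ ℂⁿ`,
with `N` poles tending to `0`, converge in `L¹_loc(Ω)` to `g`, then the convergence is locally
uniform on `Ω \ {0}` (to the representative `g'` of `g`). -/
theorem result {E : Type*} [NormedAddCommGroup E] [NormedSpace ℂ E] [FiniteDimensional ℂ E]
    [MeasurableSpace E] [BorelSpace E] (μ : Measure E) [μ.IsAddHaarMeasure]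
    (N : ℕ) (hN : 1 ≤ N) (Ω : Set E) (hΩ : Hyperconvex Ω) (h0 : (0 : E) ∈ Ω)
    (a : ℝ → Fin N → E) (ha : ∀ j, Tendsto (fun ε => a ε j) (𝓝[>] (0:ℝ)) (𝓝 0))
    (g : E → ℝ) (hg : LocallyIntegrableOn g Ω μ)
    (hL : ∀ K : Set E, IsCompact K → K ⊆ Ω →
      Tendsto (fun ε => ∫⁻ z in K, ‖(Green Ω (Set.range (a ε)) z).toReal - g z‖ₑ ∂μ)
        (𝓝[>] (0:ℝ)) (𝓝 0)) :
    ∃ g' : E → ℝ, (∀ᵐ z ∂(μ.restrict Ω), g' z = g z) ∧
      ∀ K : Set E, IsCompact K → K ⊆ Ω \ {0} →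
        (∀ᶠ ε in 𝓝[>] (0:ℝ), ∀ z ∈ K, Green Ω (Set.range (a ε)) z ≠ ⊥ ∧
          Green Ω (Set.range (a ε)) z ≠ ⊤) ∧
        TendstoUniformlyOn (fun ε z => (Green Ω (Set.range (a ε)) z).toReal) g'
          (𝓝[>] (0:ℝ)) K := by
  have hprop : ProperSpace E := FiniteDimensional.proper ℂ E
  rcases subsingleton_or_nontrivial E with hn | hn
  · refine ⟨g, ae_of_all _ fun _ => rfl, fun K _ hK => ?_⟩
    have hKe : K = ∅ := by
      apply Set.eq_empty_of_forall_notMem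
      intro z hz
      exact (hK hz).2 (Subsingleton.elim _ _)
    subst hKe
    exact ⟨Eventually.of_forall fun ε z hz => absurd hz (Set.notMem_empty z),
      fun u _ => Eventually.of_forall fun ε z hz => absurd hz (Set.notMem_empty z)⟩
  · obtain ⟨hop, hconn, hbd, ρ, hρ1, hρ2, hρ3, hρ4⟩ := hΩ
    obtain ⟨R0, hR0⟩ := hbd.exists_norm_le
    obtain ⟨s, hs, hsΩ⟩ := Metric.nhds_basis_closedBall.mem_iff.mp (hop.mem_nhds h0)
    have D : Dat Ω ρ (2 * |R0| + 2) (s / 3) N := by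
      refine ⟨hop, hρ1, hρ2, hρ3, hρ4, ?_, by positivity, ?_, ?_, hN⟩
      · have := abs_nonneg R0; linarith
      · intro z hz
        have h1 := hR0 z hz
        have h2 := le_abs_self R0
        linarith
      · have : 3 * (s / 3) = s := by ring
        rw [this]
        exact hsΩ
    have hnz : ∃ y : E, ‖y‖ = 3 * (s / 3) := by
      apply exists_norm_eq
      positivity
    have hW : IsOpen (Ω \ {0}) := hop.sdiff isClosed_singleton
    have hgm : AEStronglyMeasurable g (μ.restrict (Ω \ {0})) :=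
      (hg.aestronglyMeasurable).mono_set Set.sdiff_subset
    obtain ⟨g', h1, h2, h3⟩ := conv_core μ
      (𝓝[>] (0:ℝ)) (Ω \ {0}) hW (fun ε z => (Green Ω (Set.range (a ε)) z).toReal) g hgm
      (fun K hK hKW => (equi D hnz a ha K hK hKW).2)
      (fun K hK hKW => hL K hK (hKW.trans Set.sdiff_subset))
    refine ⟨g', ?_, fun K hK hKW => ⟨(equi D hnz a ha K hK hKW).1, h3 K hK hKW⟩⟩
    rw [ae_restrict_iff' hW.measurableSet] at h1
    rw [ae_restrict_iff' hop.measurableSet]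
    filter_upwards [h1] with z hz hzΩ
    by_cases hz0 : z = 0
    · exact h2 z fun h => h.2 hz0
    · exact hz ⟨hzΩ, hz0⟩

end Pool.Agent.Results.MP_eb85ab_an.LocallyUniform
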